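import Pool.Agent.H77.BC.Targets

/-!
# bcp_modules, ADB, EDF, MUL, RKS, TYB, RPE (helper5)
-/

set_option autoImplicit false

open Set Matrix

namespace Pool.Agent.H5.BCP

open Pool.Agent.H77.BC

theorem pf_ADB {M : Type} (U : RU M) (hB : GRB U) : ADB U := by
  intro K V _ _ _ _ _ _ _ A B hA hBD
  have hFV : Ful U V := (inferInstance : DV U K V).toFul
  have _ : DG U (Multiplicative V) := dgMult (K := K)
  have h := hB (Γ := Multiplicative V) ⊤ (AddSubgroup.toSubgroup A) (AddSubgroup.toSubgroup B)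
    (by rw [Subgroup.coe_top]; exact Ful.full) hA hBD le_top le_top
  rw [Subgroup.coe_top] at h
  exact h

theorem pf_EDF {M : Type} (U : RU M) : EDF U := by
  intro K _ _ _ E L hE hfin hEL
  have _ : IsNoetherian E K := isNoetherian_of_isNoetherianRing_of_finite E K
  set N : Submodule E K :=
    { carrier := (L : Set K)
      add_mem' := fun ha hb => L.add_mem ha hb
      zero_mem' := L.zero_mem
      smul_mem' := fun c x hx => L.mul_mem (hEL c.2) hx } with hN
  have hfg : N.FG := IsNoetherian.noetherian N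
  obtain ⟨n, b, hb⟩ := Submodule.fg_iff_exists_fin_generating_family.1 hfg
  have e : (L : Set K) = {y | ∃ x : Fin n → K, (∀ i, x i ∈ E) ∧ y = ∑ i, x i * b i} := by
    ext y
    have h1 : y ∈ (L : Set K) ↔ y ∈ N := Iff.rfl
    rw [h1, ← hb, Submodule.mem_span_range_iff_exists_fun]
    constructor
    · rintro ⟨c, hc⟩
      exact ⟨fun i => (c i : K), fun i => (c i).2, hc.symm⟩
    · rintro ⟨x, hx, hy⟩
      exact ⟨fun i => ⟨x i, hx i⟩, hy.symm⟩
  rw [e]
  refine D_exists (p := fun y (x : Fin n → K) => (∀ i, x i ∈ E) ∧ y = ∑ i, x i * b i) ?_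
  refine D_and (D_forall_fin fun i => ?_) ?_
  · exact D_subst (p := fun x => x ∈ E) hE (DFn_comp (DFn_apply i) DFn_snd)
  · exact D_eqf DFn_fst (DFn_sum _ fun i _ =>
      DFn_mul (DFn_comp (DFn_apply i) DFn_snd) (DFn_const _))

theorem pf_MUL {M : Type} (U : RU M) (h : RNG U) : MUL U := by
  intro K _ _ _ _ Λ hΛ hne hinf
  set R : AddSubgroup K :=
    { carrier := {l | ∀ x ∈ Λ, l * x ∈ Λ}
      add_mem' := by
        intro a b ha hb x hx
        rw [add_mul]
        exact Λ.add_mem (ha x hx) (hb x hx)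
      zero_mem' := by
        intro x _
        rw [zero_mul]
        exact Λ.zero_mem
      neg_mem' := by
        intro a ha x hx
        rw [neg_mul]
        exact Λ.neg_mem (ha x hx) } with hR
  have hD : U.D (R : Set K) := by
    change U.D {l : K | ∀ x : K, x ∈ Λ → l * x ∈ Λ}
    refine D_forall (p := fun l x => x ∈ Λ → l * x ∈ Λ) (D_imp ?_ ?_)
    · exact D_subst (p := fun x => x ∈ Λ) hΛ DFn_snd
    · exact D_subst (p := fun x => x ∈ Λ) hΛ (DFn_mul DFn_fst DFn_snd)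
  have hmul : ∀ x ∈ R, ∀ y ∈ R, x * y ∈ R := by
    intro x hx y hy z hz
    rw [mul_assoc]
    exact hx _ (hy z hz)
  have htop := h R hD hmul hinf
  obtain ⟨x, hx, hx0⟩ : ∃ x ∈ Λ, x ≠ 0 := by
    by_contra hcon
    push Not at hcon
    exact hne ((AddSubgroup.eq_bot_iff_forall Λ).2 hcon)
  rw [eq_top_iff]
  intro y _
  have h1 : y / x ∈ R := by
    rw [htop]
    exact AddSubgroup.mem_top _
  have h2 := h1 x hx
  rwa [div_mul_cancel₀ y hx0] at h2

theorem pf_RKS {M : Type} (U : RU M) (hA : RKA U) (_hB : RKB U) (hV : RNV U) : RKS U := by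
  intro K _ _ _ _
  have key : ∀ {α : Type} [Zero α] [Cod M α] [Ful U α], (∃ x : α, x ≠ 0) →
      U.R {x : α | x ≠ 0} = U.R (univ : Set α) := by
    intro α _ _ _ hne
    have h0 : U.R ({0} : Set α) = 0 :=
      (hA.fin (D_singleton 0) (singleton_nonempty 0)).2 (finite_singleton 0)
    have hD : U.D {x : α | x ≠ 0} := by
      have : {x : α | x ≠ 0} = ({0} : Set α)ᶜ := by
        ext x
        simp
      rw [this]
      exact D_compl (D_singleton 0)
    have hu : (univ : Set α) = {0} ∪ {x : α | x ≠ 0} := by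
      ext x
      simp only [mem_univ, mem_union, mem_singleton_iff, mem_ofPred_eq, true_iff]
      exact em _
    rw [hu, hA.union (D_singleton 0) hD (singleton_nonempty 0) hne, h0, Nat.max_eq_right
      (Nat.zero_le _)]
  refine ⟨?_, key ⟨1, one_ne_zero⟩, ?_⟩
  · rw [Nat.one_le_iff_ne_zero]
    intro h
    exact Set.infinite_univ ((hA.fin Ful.full univ_nonempty).1 h)
  · intro k
    rw [key ⟨fun _ => 1, fun h => one_ne_zero (congrFun h 0)⟩, (hV (K := K) (k + 1) 0).1]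

theorem bl_one_val {K : Type} [Field K] {k : ℕ} (φ : Fin (k + 1) → K) (h : φ 0 = 0) :
    ((bl 1 (fun j => φ j.succ) 1 : GL (Fin (k + 1)) K).val : Matrix (Fin (k + 1)) (Fin (k + 1)) K) =
      1 + vecMulVec e0 φ := by
  rw [bl_val]
  ext i j
  refine Fin.cases ?_ (fun i => ?_) i <;> refine Fin.cases ?_ (fun j => ?_) j
  · simp [e0, vecMulVec_apply, h]
  · simp [e0, vecMulVec_apply, Fin.ext_iff]
  · simp [e0, vecMulVec_apply, Fin.ext_iff]
  · simp [e0, vecMulVec_apply, Matrix.one_apply]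

theorem pf_TYB {M : Type} (U : RU M) (hV : RNV U) (hC : ADC U) (hR : REC U) (_hT : CJT) :
    TYB U := by
  intro K _ _ _ _ h1 k H hH hk
  have hAA := (hR k H hH).2.1
  have htop := hC K (AA H) hAA (by rw [(hV (K := K) k 0).1, h1, mul_one]; exact hk)
  intro φ hφ
  have h0 : φ 0 = 0 := by
    simpa [e0] using hφ
  have h2 : (fun j => φ j.succ) ∈ AA H := by
    rw [htop]
    exact AddSubgroup.mem_top _
  exact ⟨bl 1 (fun j => φ j.succ) 1, h2, bl_one_val φ h0⟩

theorem pf_RPE {M : Type} (U : RU M) (_hA : RKA U) (hB : RKB U) (hV : RNV U) (hK : RKS U)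
    (hG : RGL U) : RPE U := by
  intro K _ _ _ _ k
  have hD : U.D ((Pv e0 : Subgroup (GL (Fin (k + 1)) K)) : Set (GL (Fin (k + 1)) K)) := by
    change U.D {g : GL (Fin (k + 1)) K | ∃ a : K,
      (g.val : Matrix (Fin (k + 1)) (Fin (k + 1)) K) *ᵥ e0 = a • e0}
    refine D_exists (p := fun (g : GL (Fin (k + 1)) K) (a : K) =>
      (g.val : Matrix (Fin (k + 1)) (Fin (k + 1)) K) *ᵥ e0 = a • e0) ?_
    exact D_eqf (DFn_mulVec (DFn_comp DFn_val DFn_fst) (DFn_const _))
      (DFn_smul DFn_snd (DFn_const _))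
  refine ⟨hD, ?_⟩
  set X : Set (K × (Fin k → K) × GL (Fin k) K) := {a : K | a ≠ 0} ×ˢ (univ ×ˢ univ) with hX
  set f : K × (Fin k → K) × GL (Fin k) K → Matrix (Fin (k + 1)) (Fin (k + 1)) K :=
    fun p => blm p.1 p.2.1 p.2.2.val with hf
  have hfD : DFn U f := by
    refine DFn_mat fun i j => ?_
    refine Fin.cases ?_ (fun i => ?_) i <;> refine Fin.cases ?_ (fun j => ?_) j
    · exact DFn_fst
    · exact DFn_comp (DFn_apply j) (DFn_comp DFn_fst DFn_snd)
    · exact DFn_const 0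
    · exact DFn_comp (DFn_entry i j) (DFn_comp DFn_val (DFn_comp DFn_snd DFn_snd))
  have hD0 : U.D {a : K | a ≠ 0} := D_not (D_eqf DFn_id (DFn_const 0))
  have hne : ({a : K | a ≠ 0} : Set K).Nonempty := ⟨1, one_ne_zero⟩
  have hne2 : ((univ : Set (Fin k → K)) ×ˢ (univ : Set (GL (Fin k) K))).Nonempty :=
    ⟨(0, 1), trivial, trivial⟩
  have hXD : U.D X := D_prod hD0 (D_prod Ful.full Ful.full)
  have hXR : U.R X = U.R (univ : Set K) + (k * U.R (univ : Set K) + k * k * U.R (univ : Set K)) := by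
    rw [hX, hB.prod hD0 (D_prod Ful.full Ful.full) hne hne2,
      hB.prod Ful.full Ful.full univ_nonempty univ_nonempty, hK.2.1, (hV (K := K) k 0).1,
      hG (K := K) k]
  have himg : f '' X = (fun g : GL (Fin (k + 1)) K => (g.val : Matrix _ _ K)) ''
      ((Pv e0 : Subgroup (GL (Fin (k + 1)) K)) : Set (GL (Fin (k + 1)) K)) := by
    ext A
    constructor
    · rintro ⟨⟨a, φ, B⟩, ⟨ha, -⟩, rfl⟩
      exact ⟨bl (Units.mk0 a ha) φ B, mem_Pv_e0.2 ⟨_, _, _, rfl⟩, rfl⟩
    · rintro ⟨g, hg, rfl⟩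
      obtain ⟨a, φ, B, rfl⟩ := mem_Pv_e0.1 hg
      exact ⟨(a, φ, B), ⟨a.ne_zero, trivial, trivial⟩, rfl⟩
  have h1 : U.R (f '' X) = U.R X := by
    refine hB.inj hXD hfD (hne.prod hne2) ?_
    rintro ⟨a, φ, B⟩ - ⟨b, ψ, C⟩ - h
    obtain ⟨h1, h2, h3⟩ := blm_inj h
    exact Prod.ext h1 (Prod.ext h2 (Units.ext h3))
  have h2 : U.R ((fun g : GL (Fin (k + 1)) K => (g.val : Matrix _ _ K)) ''
      ((Pv e0 : Subgroup (GL (Fin (k + 1)) K)) : Set (GL (Fin (k + 1)) K))) =
      U.R ((Pv e0 : Subgroup (GL (Fin (k + 1)) K)) : Set (GL (Fin (k + 1)) K)) :=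
    hB.inj hD DFn_val ⟨1, Subgroup.one_mem _⟩ (fun a _ b _ h => Units.ext h)
  rw [← h2, ← himg, h1, hXR]
  ring

end Pool.Agent.H5.BCP
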