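import Pool.Agent.H77.BC.Targets

/-!
# bcp_modules, CNA: definable automorphisms (helper5)
-/

set_option autoImplicit false

open Set Matrix

namespace Pool.Agent.H5.BCP

open Pool.Agent.H77.BC

theorem pf_CNA {M : Type} (U : RU M) (_hA : RKA U) (hB : RKB U) : CNA U := by
  intro Γ _ _ _ σ hσ H hH
  have hD : U.D ((H.comap σ.toMonoidHom : Subgroup Γ) : Set Γ) := DFn_preim hσ hH
  have himg : (fun g : Γ => σ g) '' ((H.comap σ.toMonoidHom : Subgroup Γ) : Set Γ) =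
      (H : Set Γ) := by
    ext x
    constructor
    · rintro ⟨y, hy, rfl⟩
      exact hy
    · intro hx
      refine ⟨σ.symm x, ?_, σ.apply_symm_apply x⟩
      change σ (σ.symm x) ∈ H
      rw [σ.apply_symm_apply]
      exact hx
  have hinj : ∀ X : Set Γ, InjOn (fun g : Γ => σ g) X := fun X a _ b _ h => σ.injective h
  have hR : U.R ((H.comap σ.toMonoidHom : Subgroup Γ) : Set Γ) = U.R (H : Set Γ) := by
    rw [← hB.inj hD hσ ⟨1, Subgroup.one_mem _⟩ (hinj _), himg]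
  refine ⟨hD, hR, ?_⟩
  rintro ⟨-, hC⟩
  refine ⟨hD, ?_⟩
  intro L hL hLD hLR
  have h1 : U.D ((L.map σ.toMonoidHom : Subgroup Γ) : Set Γ) := DFn_image hσ hLD
  have h2 : U.R ((L.map σ.toMonoidHom : Subgroup Γ) : Set Γ) = U.R (L : Set Γ) :=
    hB.inj hLD hσ ⟨1, L.one_mem⟩ (hinj _)
  have h3 : L.map σ.toMonoidHom ≤ H := by
    rintro x ⟨y, hy, rfl⟩
    exact hL hy
  have h4 := hC _ h3 h1 (by rw [h2, ← hR]; exact hLR)
  apply le_antisymm hL
  intro x hx
  have h5 : σ x ∈ L.map σ.toMonoidHom := by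
    rw [h4]
    exact hx
  obtain ⟨y, hy, hyx⟩ := h5
  have h6 : y = x := σ.injective hyx
  exact h6 ▸ hy

end Pool.Agent.H5.BCP
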