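import Pool.Agent.H77.BC.Targets

/-!
# bcp_modules, CNJ: conjugates (helper5)
-/

set_option autoImplicit false

open Set Matrix

namespace Pool.Agent.H5.BCP

open Pool.Agent.H77.BC

theorem pf_CNJ {M : Type} (U : RU M) (hC : CNA U) : CNJ U := by
  intro Γ _ _ _ g H hH
  have h : DFn U (fun x : Γ => (MulAut.conj g) x) :=
    DFn_gmul (DFn_gmul (DFn_const g) DFn_id) (DFn_const g⁻¹)
  exact hC (MulAut.conj g) h H hH

end Pool.Agent.H5.BCP
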