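import Pool.Agent.H77.BC.Targets

/-!
# bcp_modules, COM: commutators (helper5)
-/

set_option autoImplicit false

open Set Matrix

namespace Pool.Agent.H5.BCP

open Pool.Agent.H77.BC

theorem pf_COM : COM := by
  intro K _ k H s s' hs hs' φ hφ
  obtain ⟨a, ψ, h1⟩ := hs
  obtain ⟨a', ψ', h2⟩ := hs'
  have hc : bl a ψ s * bl a' ψ' s' * (bl a ψ s)⁻¹ * (bl a' ψ' s')⁻¹ ∈ H :=
    H.mul_mem (H.mul_mem (H.mul_mem h1 h2) (H.inv_mem h1)) (H.inv_mem h2)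
  rw [bl_inv, bl_inv, bl_mul, bl_mul, bl_mul] at hc
  have ha : a * a' * a⁻¹ * a'⁻¹ = 1 := by
    rw [mul_comm a a', mul_inv_cancel_right, mul_inv_cancel]
  rw [ha] at hc
  have hφ' : bl 1 φ 1 ∈ H := hφ
  generalize s * s' * s⁻¹ * s'⁻¹ = C at hc ⊢
  obtain ⟨θ, hθ⟩ : ∃ θ : Fin k → K, bl 1 θ C ∈ H := ⟨_, hc⟩
  have key : bl 1 φ 1 * bl 1 θ C = bl 1 θ C * bl 1 (φ ᵥ* C.val) 1 := by
    rw [bl_mul, bl_mul, one_mul C, mul_one C, Units.val_one, one_smul, one_smul, Units.val_one,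
      vecMul_one, add_comm θ]
  have h3 : bl 1 (φ ᵥ* C.val) 1 = (bl 1 θ C)⁻¹ * (bl 1 φ 1 * bl 1 θ C) := by
    rw [key, inv_mul_cancel_left]
  change bl 1 (φ ᵥ* C.val) 1 ∈ H
  rw [h3]
  exact H.mul_mem (H.inv_mem hθ) (H.mul_mem hφ' hθ)

end Pool.Agent.H5.BCP
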