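import Pool.Agent.H77.BC.Targets

/-!
# bcp_modules, DGV and FDG: two definable subsets of full rank meet (helper5)
-/

set_option autoImplicit false

open Set Matrix

namespace Pool.Agent.H5.BCP

open Pool.Agent.H77.BC

theorem pf_DGV {M : Type} (U : RU M) (hC : ADC U) (hE : DEG U) : DGV U := by
  intro K V _ _ _ _ _ _ _ _ X Y hX hY hX0 hY0 hXR hYR
  have hFV : Ful U V := (inferInstance : DV U K V).toFul
  have : DG U (Multiplicative V) := dgMult (K := K)
  have hconn : Conn U (⊤ : Subgroup (Multiplicative V)) := by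
    refine ⟨?_, ?_⟩
    · rw [Subgroup.coe_top]
      exact Ful.full
    · intro L _ hLD hLR
      have h := hC K (Subgroup.toAddSubgroup' L) hLD (by rw [Subgroup.coe_top] at hLR; exact hLR)
      rw [eq_top_iff]
      intro x _
      have h1 : x.toAdd ∈ Subgroup.toAddSubgroup' L := by
        rw [h]
        exact AddSubgroup.mem_top _
      exact h1
  exact hE (Γ := Multiplicative V) ⊤ hconn X Y hX hY (fun _ _ => trivial) (fun _ _ => trivial)
    hX0 hY0 (by rw [Subgroup.coe_top]; exact hXR) (by rw [Subgroup.coe_top]; exact hYR)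

theorem pf_FDG {M : Type} (U : RU M) (hF : FCN U) (hE : DEG U) : FDG U := by
  intro K _ _ _ _ X Y hX hY hX0 hY0 hXR hYR
  have : DG U (Multiplicative K) := dgMult (K := K)
  have hconn : Conn U (⊤ : Subgroup (Multiplicative K)) := by
    refine ⟨?_, ?_⟩
    · rw [Subgroup.coe_top]
      exact Ful.full
    · intro L _ hLD hLR
      have h := hF (Subgroup.toAddSubgroup' L) hLD (by rw [Subgroup.coe_top] at hLR; exact hLR)
      rw [eq_top_iff]
      intro x _
      have h1 : x.toAdd ∈ Subgroup.toAddSubgroup' L := by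
        rw [h]
        exact AddSubgroup.mem_top _
      exact h1
  exact hE (Γ := Multiplicative K) ⊤ hconn X Y hX hY (fun _ _ => trivial) (fun _ _ => trivial)
    hX0 hY0 (by rw [Subgroup.coe_top]; exact hXR) (by rw [Subgroup.coe_top]; exact hYR)

end Pool.Agent.H5.BCP
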