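import Pool.Agent.H77.BC.Targets

/-!
# bcp_modules, FDE and GTR (helper5)
-/

set_option autoImplicit false

open Set Matrix

namespace Pool.Agent.H5.BCP

open Pool.Agent.H77.BC

theorem DFn_cons {M : Type} {U : RU M} {α : Type} [Cod M α] [Ful U α] (n : ℕ) :
    DFn U (fun p : α × (Fin n → α) => (Fin.cons p.1 p.2 : Fin (n + 1) → α)) := by
  refine DFn_vec fun i => ?_
  refine Fin.cases ?_ (fun i => ?_) i
  · exact DFn_fst
  · exact DFn_comp (f := fun p : α × (Fin n → α) => p.2) (g := fun x : Fin n → α => x i)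
      (DFn_apply i) DFn_snd

/-- rank of a power -/
theorem R_pow {M : Type} (U : RU M) (hA : RKA U) (hB : RKB U) {α : Type} [Cod M α] [Ful U α]
    (E : Set α) (hE : U.D E) (hne : E.Nonempty) (n : ℕ) :
    U.D {x : Fin n → α | ∀ i, x i ∈ E} ∧ U.R {x : Fin n → α | ∀ i, x i ∈ E} = n * U.R E := by
  have hD : ∀ n : ℕ, U.D {x : Fin n → α | ∀ i, x i ∈ E} := fun n =>
    D_forall_fin fun i => D_subst (p := fun x => x ∈ E) hE (DFn_apply i)
  refine ⟨hD n, ?_⟩
  have hNe : ∀ n : ℕ, {x : Fin n → α | ∀ i, x i ∈ E}.Nonempty := by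
    intro n
    obtain ⟨a, ha⟩ := hne
    exact ⟨fun _ => a, fun _ => ha⟩
  induction n with
  | zero =>
    rw [zero_mul]
    exact (hA.fin (hD 0) (hNe 0)).2 (Set.toFinite _)
  | succ n ih =>
    have e : (fun p : α × (Fin n → α) => (Fin.cons p.1 p.2 : Fin (n + 1) → α)) ''
        (E ×ˢ {x : Fin n → α | ∀ i, x i ∈ E}) = {x : Fin (n + 1) → α | ∀ i, x i ∈ E} := by
      ext x
      constructor
      · rintro ⟨⟨a, y⟩, ⟨ha, hy⟩, rfl⟩
        intro i
        refine Fin.cases ?_ (fun i => ?_) i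
        · exact ha
        · exact hy i
      · intro hx
        exact ⟨(x 0, fun i => x i.succ), ⟨hx 0, fun i => hx i.succ⟩, Fin.cons_self_tail x⟩
    rw [← e, hB.inj (D_prod hE (hD n)) (DFn_cons n) (hne.prod (hNe n)), hB.prod hE (hD n) hne (hNe n),
      ih]
    · ring
    · rintro ⟨a, x⟩ - ⟨b, y⟩ - h
      obtain ⟨h1, h2⟩ := Fin.cons_injective2 h
      exact Prod.ext h1 h2

theorem pf_FDE {M : Type} (U : RU M) (hA : RKA U) (hB : RKB U) : FDE U := by
  intro K _ _ _ E hE hinf
  have hR1 : 1 ≤ U.R (E : Set K) := by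
    rw [Nat.one_le_iff_ne_zero]
    intro h
    exact hinf ((hA.fin hE ⟨0, E.zero_mem⟩).1 h)
  have key : ∀ (n : ℕ) (e : Fin n → K), LinearIndependent E e → n ≤ U.R (univ : Set K) := by
    intro n e he
    obtain ⟨hD, hR⟩ := R_pow U hA hB (E : Set K) hE ⟨0, E.zero_mem⟩ n
    have hf : DFn U (fun x : Fin n → K => ∑ i, x i * e i) :=
      DFn_sum _ fun i _ => DFn_mul (DFn_apply i) (DFn_const _)
    have hinj : InjOn (fun x : Fin n → K => ∑ i, x i * e i) {x : Fin n → K | ∀ i, x i ∈ (E : Set K)} := by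
      intro x hx y hy h
      have h1 : ∑ i, (⟨x i - y i, E.sub_mem (hx i) (hy i)⟩ : E) • e i = 0 := by
        have h2 : ∀ i, (⟨x i - y i, E.sub_mem (hx i) (hy i)⟩ : E) • e i = x i * e i - y i * e i := by
          intro i
          change (x i - y i) * e i = _
          ring
        rw [Finset.sum_congr rfl fun i _ => h2 i, Finset.sum_sub_distrib]
        exact sub_eq_zero.2 h
      have h3 := Fintype.linearIndependent_iff.1 he _ h1
      funext i
      have h4 := congrArg Subtype.val (h3 i)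
      exact sub_eq_zero.1 h4
    have hne : {x : Fin n → K | ∀ i, x i ∈ (E : Set K)}.Nonempty := ⟨0, fun _ => E.zero_mem⟩
    have h5 : U.R ((fun x : Fin n → K => ∑ i, x i * e i) '' {x : Fin n → K | ∀ i, x i ∈ (E : Set K)}) =
        n * U.R (E : Set K) := by
      rw [hB.inj hD hf hne hinj, hR]
    have h6 := hA.mono (DFn_image hf hD) (Ful.full (U := U) (α := K)) (hne.image _) (subset_univ _)
    rw [h5] at h6
    nlinarith
  by_contra hcon
  have h7 : Cardinal.aleph0 ≤ Module.rank E K := by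
    by_contra h8
    push Not at h8
    exact hcon (Module.rank_lt_aleph0_iff.1 h8)
  obtain ⟨s, hs, hli⟩ := (le_rank_iff_exists_linearIndependent_finset
    (n := U.R (univ : Set K) + 1)).1 ((Cardinal.natCast_lt_aleph0).le.trans h7)
  have h9 := key (U.R (univ : Set K) + 1)
    (fun i => ((s.equivFinOfCardEq hs).symm i : K)) (hli.comp _ (Equiv.injective _))
  omega

theorem pf_GTR (hA : ∀ {M : Type} (U : RU M), RKA U) (hB : ∀ {M : Type} (U : RU M), RKB U) :
    GTR := by
  intro G S _ _ U hP μ hgen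
  have _ := hP.ful
  have _ := hP.fulS
  obtain ⟨s, hs⟩ := hgen
  rcases Nat.eq_zero_or_pos μ with hμ | hμ
  · subst hμ
    rw [zero_mul]
    exact Nat.zero_le _
  have hSne : (univ : Set S).Nonempty := ⟨s ⟨0, hμ⟩, trivial⟩
  have hf : DFn U (fun g : G => (fun i => g • s i : Fin μ → S)) :=
    DFn_vec fun i => DFn_comp (g := fun p : G × S => p.1 • p.2) hP.dact
      (DFn_pair DFn_id (DFn_const (s i)))
  have hOD : U.D ((fun g : G => (fun i => g • s i : Fin μ → S)) '' univ) :=
    DFn_image hf Ful.full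
  have hO : U.R ((fun g : G => (fun i => g • s i : Fin μ → S)) '' univ) + 0 ≤
      U.R (univ : Set G) := (hB U).fib_ge Ful.full hf ⟨1, trivial⟩ (fun _ _ => Nat.zero_le _)
  have hpow := (R_pow U (hA U) (hB U) (univ : Set S) Ful.full hSne μ).2
  have e0 : {x : Fin μ → S | ∀ i, x i ∈ (univ : Set S)} = univ := by
    ext x
    exact ⟨fun _ => trivial, fun _ _ => trivial⟩
  rw [e0] at hpow
  have e1 : {x : Fin μ → S | ¬ ∃ g : G, ∀ i, x i = g • s i} =
      ((fun g : G => (fun i => g • s i : Fin μ → S)) '' univ)ᶜ := by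
    ext x
    rw [mem_compl_iff, image_univ, mem_range]
    refine not_congr ⟨?_, ?_⟩
    · rintro ⟨g, hg⟩
      exact ⟨g, funext fun i => (hg i).symm⟩
    · rintro ⟨g, hg⟩
      exact ⟨g, fun i => (congrFun hg i).symm⟩
  rw [e1] at hs
  rw [← hpow]
  rcases Set.eq_empty_or_nonempty
    (((fun g : G => (fun i => g • s i : Fin μ → S)) '' univ)ᶜ) with h | h
  · rw [compl_empty_iff] at h
    rw [h] at hO
    exact hO
  · have h1 := hs h
    have h2 := (hA U).union hOD (D_compl hOD) (image_nonempty.2 ⟨1, trivial⟩) h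
    rw [union_compl_self] at h2
    omega

end Pool.Agent.H5.BCP
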