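import Pool.Agent.H77.BC.Targets

/-!
# bcp_modules, GRC: rank of image and kernel (helper5)
-/

set_option autoImplicit false

open Set Matrix

namespace Pool.Agent.H5.BCP

open Pool.Agent.H77.BC

theorem pf_GRC {M : Type} (U : RU M) (_hA : RKA U) (hB : RKB U) : GRC U := by
  intro Γ β _ _ _ _ _ H L φ hH hL hLH hφ hker
  refine hB.fib_eq hH hφ ⟨1, H.one_mem⟩ ?_
  rintro b ⟨a0, ha0, rfl⟩
  have h1 : {a : Γ | a ∈ (H : Set Γ) ∧ φ a = φ a0} = (fun x : Γ => a0 * x) '' (L : Set Γ) := by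
    ext a
    constructor
    · rintro ⟨ha, h⟩
      exact ⟨a0⁻¹ * a, (hker a0 ha0 a ha).1 h.symm, mul_inv_cancel_left a0 a⟩
    · rintro ⟨x, hx, rfl⟩
      have h2 : a0 * x ∈ H := H.mul_mem ha0 (hLH hx)
      refine ⟨h2, ((hker a0 ha0 _ h2).2 ?_).symm⟩
      rw [inv_mul_cancel_left]
      exact hx
  rw [h1]
  exact hB.inj hL (DFn_gmul (DFn_const a0) DFn_id) ⟨1, L.one_mem⟩
    (fun a _ b _ h => mul_left_cancel h)

end Pool.Agent.H5.BCP
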