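import Pool.Agent.H77.BC.Targets

/-!
# bcp_modules, LIN: lines in large additive groups (helper5)
-/

set_option autoImplicit false

open Set Matrix

namespace Pool.Agent.H5.BCP

open Pool.Agent.H77.BC

theorem DFn_single {M : Type} (U : RU M) {K : Type} [Field K] [Cod M K] [DF U K] {k : ℕ}
    (j : Fin k) : DFn U (fun t : K => (Pi.single j t : Fin k → K)) := by
  refine DFn_vec fun i => ?_
  by_cases h : i = j
  · subst h
    have e : (fun t : K => (Pi.single i t : Fin k → K) i) = fun t => t := by
      funext t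
      rw [Pi.single_eq_same]
    rw [e]
    exact DFn_id
  · have e : (fun t : K => (Pi.single j t : Fin k → K) i) = fun _ => 0 := by
      funext t
      rw [Pi.single_eq_of_ne h]
    rw [e]
    exact DFn_const _

theorem pf_LIN {M : Type} (U : RU M) (hA : RKA U) (hB : RKB U) (hD : ADB U) (hV : RNV U) :
    LIN U := by
  intro K _ _ _ _ k A hAD hrk j
  set B : AddSubgroup (Fin k → K) := (AddMonoidHom.single (fun _ : Fin k => K) j).range with hBd
  have hBset : (B : Set (Fin k → K)) = (fun t : K => (Pi.single j t : Fin k → K)) '' univ := by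
    ext x
    simp only [hBd, SetLike.mem_coe, AddMonoidHom.mem_range, image_univ, mem_range]
    rfl
  have hBD : U.D (B : Set (Fin k → K)) := by
    rw [hBset]
    exact DFn_image (DFn_single U j) Ful.full
  have hBR : U.R (B : Set (Fin k → K)) = U.R (univ : Set K) := by
    rw [hBset]
    exact hB.inj Ful.full (DFn_single U j) univ_nonempty
      (fun a _ b _ h => Pi.single_injective j h)
  have h1 := hD K A B hAD hBD
  rw [hBR, (hV (K := K) k 0).1] at h1
  have h2 : U.R ((A ⊓ B : AddSubgroup (Fin k → K)) : Set (Fin k → K)) ≠ 0 := by omega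
  have h3 : U.D ((A ⊓ B : AddSubgroup (Fin k → K)) : Set (Fin k → K)) := by
    rw [AddSubgroup.coe_inf]
    exact D_inter hAD hBD
  have h4 : ¬ ((A ⊓ B : AddSubgroup (Fin k → K)) : Set (Fin k → K)).Finite := fun hf =>
    h2 ((hA.fin h3 ⟨0, AddSubgroup.zero_mem _⟩).2 hf)
  intro hfin
  apply h4
  refine (hfin.image (fun t : K => (Pi.single j t : Fin k → K))).subset ?_
  rw [AddSubgroup.coe_inf, hBset]
  rintro x ⟨hxA, t, -, rfl⟩
  exact ⟨t, hxA, rfl⟩

end Pool.Agent.H5.BCP
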