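import Pool.Agent.H77.BC.Targets

/-!
# bcp_modules, MK and LAM: Theorem (M) (helper5)
-/

set_option autoImplicit false

open Set Matrix

namespace Pool.Agent.H5.BCP

open Pool.Agent.H77.BC

theorem pf_MK {M : Type} (U : RU M) (hJ : CNJ U) (h2 : M2A U) (hS : MSA U) (hL : LIN U)
    (hM : LAM U) (hR : REC U) (hG : SLG) (hC : CJL) : MK U := by
  intro K _ _ _ _ k hk
  have _ : Infinite K := inferInstance
  induction k, hk using Nat.le_induction with
  | base =>
    intro H hH hr
    refine hG H ?_
    intro i j t hij
    obtain ⟨g, l, hgl⟩ := hC (K := K) (k := 1) i j hij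
    rw [← hgl H t]
    obtain ⟨h3, h4, -⟩ := hJ g H hH
    rw [h2 (cj g H) h3 (by rw [h4]; norm_num at hr; exact hr)]
    exact AddSubgroup.mem_top _
  | succ k hk ih =>
    intro H hH hr
    refine hM (k + 1 + 1) (by omega) H hH ?_
    intro i j hij
    obtain ⟨g, l, hgl⟩ := hC (K := K) (k := k + 1) i j hij
    obtain ⟨h3, h4, -⟩ := hJ g H hH
    have h5 := hS k hk ih (cj g H) h3 (by rw [h4]; exact hr)
    have h6 := hL (k + 1) (AA (cj g H)) (hR (k + 1) (cj g H) h3).2.1 h5 l
    have e : {t : K | InL H i j t} = {t : K | (Pi.single l t : Fin (k + 1) → K) ∈ AA (cj g H)} := by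
      ext t
      exact (hgl H t).symm
    rw [e]
    exact h6

section Lam

variable {K : Type} [Field K]

/-- the commutator of two transvections -/
theorem trans_comm {k : ℕ} {i j l : Fin k} (hij : i ≠ j) (_hil : i ≠ l) (hlj : l ≠ j) (s t : K) :
    transvection i l s * transvection l j t =
      transvection i j (s * t) * (transvection l j t * transvection i l s) := by
  unfold transvection
  have h1 : single i l s * single l j t = single i j (s * t) := single_mul_single_same ..
  have h2 : single l j t * single i l s = 0 := single_mul_single_of_ne _ _ _ _ hij.symm _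
  have h3 : single i j (s * t) * single l j t = 0 := single_mul_single_of_ne _ _ _ _ hlj.symm _
  have h4 : single i j (s * t) * single i l s = 0 := single_mul_single_of_ne _ _ _ _ hij.symm _
  have e1 : (1 + single i l s) * (1 + single l j t) =
      1 + single i l s + single l j t + single i l s * single l j t := by noncomm_ring
  have e2 : (1 + single i j (s * t)) * ((1 + single l j t) * (1 + single i l s)) =
      1 + single i l s + single l j t + single i j (s * t) + single l j t * single i l s +
        single i j (s * t) * single l j t + single i j (s * t) * single i l s +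
        single i j (s * t) * (single l j t * single i l s) := by noncomm_ring
  rw [e1, e2, h1, h2, h3, h4, mul_zero, add_zero, add_zero, add_zero, add_zero]

theorem inL_mul {k : ℕ} {H : Subgroup (GL (Fin k) K)} {i j l : Fin k} (hij : i ≠ j)
    (hil : i ≠ l) (hlj : l ≠ j) {s t : K} (hs : InL H i l s) (ht : InL H l j t) :
    InL H i j (s * t) := by
  obtain ⟨g, hg, hgs⟩ := hs
  obtain ⟨h, hh, hht⟩ := ht
  refine ⟨(g * h) * (h * g)⁻¹, H.mul_mem (H.mul_mem hg hh) (H.inv_mem (H.mul_mem hh hg)), ?_⟩
  have h1 : ((g * h).val : Matrix (Fin k) (Fin k) K) =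
      transvection i j (s * t) * (h * g).val := by
    rw [Units.val_mul, Units.val_mul, hgs, hht, trans_comm hij hil hlj]
  rw [Units.val_mul, h1, Matrix.mul_assoc, ← Units.val_mul, mul_inv_cancel, Units.val_one,
    Matrix.mul_one]

/-- the elements of `K` which give elementary matrices in `H` -/
def Lm {k : ℕ} (H : Subgroup (GL (Fin k) K)) (i j : Fin k) (hij : i ≠ j) : AddSubgroup K where
  carrier := {t | InL H i j t}
  zero_mem' := ⟨1, H.one_mem, by rw [transvection_zero, Units.val_one]⟩
  add_mem' := by
    rintro s t ⟨g, hg, hgs⟩ ⟨h, hh, hht⟩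
    exact ⟨g * h, H.mul_mem hg hh, by
      rw [Units.val_mul, hgs, hht, transvection_mul_transvection_same _ _ hij]⟩
  neg_mem' := by
    rintro s ⟨g, hg, hgs⟩
    refine ⟨g⁻¹, H.inv_mem hg, ?_⟩
    refine Units.inv_eq_of_mul_eq_one_right ?_
    rw [hgs, transvection_mul_transvection_same _ _ hij, add_neg_cancel, transvection_zero]

end Lam

theorem DFn_trans {M : Type} {U : RU M} {K α : Type} [Field K] [Cod M K] [DF U K] [Cod M α]
    [Ful U α] {k : ℕ} (i j : Fin k) {f : α → K} (hf : DFn U f) :
    DFn U (fun a => transvection i j (f a)) := by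
  refine DFn_mat fun a b => ?_
  unfold transvection
  simp only [Matrix.add_apply, Matrix.single_apply]
  refine DFn_add (DFn_const _) ?_
  by_cases h : i = a ∧ j = b
  · simp only [if_pos h]
    exact hf
  · simp only [if_neg h]
    exact DFn_const 0

theorem pf_LAM {M : Type} (U : RU M) (hM : MUL U) (hS : SLG) : LAM U := by
  intro K _ _ _ _ k hk H hH hinf
  refine hS H ?_
  intro i j t hij
  obtain ⟨l, hli, hlj⟩ := Fin.exists_ne_and_ne_of_two_lt i j (by omega)
  have hD : U.D (Lm H i j hij : Set K) := by
    change U.D {t : K | ∃ g : GL (Fin k) K, g ∈ H ∧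
      (g.val : Matrix (Fin k) (Fin k) K) = transvection i j t}
    refine D_exists (p := fun (t : K) (g : GL (Fin k) K) => g ∈ H ∧
      (g.val : Matrix (Fin k) (Fin k) K) = transvection i j t) (D_and ?_ ?_)
    · exact D_subst (p := fun g => g ∈ H) hH DFn_snd
    · exact D_eqf (DFn_comp DFn_val DFn_snd) (DFn_trans i j DFn_fst)
  have hne : Lm H i j hij ≠ ⊥ := by
    intro hcon
    apply hinf i j hij
    have : {t : K | InL H i j t} = ((⊥ : AddSubgroup K) : Set K) := by
      rw [← hcon]
      rfl
    rw [this, AddSubgroup.coe_bot]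
    exact finite_singleton 0
  obtain ⟨c, hc, hc0⟩ : ∃ c : K, InL H l j c ∧ c ≠ 0 := by
    by_contra hcon
    push Not at hcon
    exact hinf l j hlj ((finite_singleton (0 : K)).subset fun x hx => hcon x hx)
  have hmul : {m : K | ∀ x ∈ Lm H i j hij, m * x ∈ Lm H i j hij}.Infinite := by
    have h1 : ((fun b : K => b * c) '' {b : K | InL H j l b}).Infinite :=
      (hinf j l hlj.symm).image fun a _ b _ h => mul_right_cancel₀ hc0 h
    refine h1.mono ?_
    rintro m ⟨b, hb, rfl⟩ x hx
    have h2 : InL H i l (x * b) := inL_mul hli.symm hij hlj.symm hx hb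
    have h3 : InL H i j (x * b * c) := inL_mul hij hli.symm hlj h2 hc
    have e : b * c * x = x * b * c := by ring
    change InL H i j (b * c * x)
    rw [e]
    exact h3
  have htop := hM (Lm H i j hij) hD hne hmul
  have h4 : t ∈ Lm H i j hij := by
    rw [htop]
    exact AddSubgroup.mem_top _
  exact h4

end Pool.Agent.H5.BCP
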