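import Pool.Agent.H77.BC.Targets

/-!
# bcp_modules, OPN: connected groups from injective maps to vector spaces (helper5)
-/

set_option autoImplicit false

open Set Matrix

namespace Pool.Agent.H5.BCP

open Pool.Agent.H77.BC

theorem pf_OPN {M : Type} (U : RU M) (_hA : RKA U) (hB : RKB U) (hV : DGV U) : OPN U := by
  intro K V Γ _ _ _ _ _ _ _ _ _ _ _ H j hH hj hinj hR
  have hFV : Ful U V := (inferInstance : DV U K V).toFul
  refine ⟨hH, ?_⟩
  intro L hLH hLD hLR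
  apply le_antisymm hLH
  intro g hg
  have hL0 : (L : Set Γ).Nonempty := ⟨1, L.one_mem⟩
  have hgf : DFn U (fun x : Γ => g * x) := DFn_gmul (DFn_const g) DFn_id
  have hgD : U.D ((fun x : Γ => g * x) '' (L : Set Γ)) := DFn_image hgf hLD
  have hgR : U.R ((fun x : Γ => g * x) '' (L : Set Γ)) = U.R (L : Set Γ) :=
    hB.inj hLD hgf hL0 (fun a _ b _ h => mul_left_cancel h)
  have hgH : (fun x : Γ => g * x) '' (L : Set Γ) ⊆ (H : Set Γ) := by
    rintro x ⟨y, hy, rfl⟩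
    exact H.mul_mem hg (hLH hy)
  have r1 : U.R (j '' (L : Set Γ)) = U.R (L : Set Γ) := hB.inj hLD hj hL0 (hinj.mono hLH)
  have r2 : U.R (j '' ((fun x : Γ => g * x) '' (L : Set Γ))) =
      U.R ((fun x : Γ => g * x) '' (L : Set Γ)) := hB.inj hgD hj (hL0.image _) (hinj.mono hgH)
  obtain ⟨v, ⟨x, hx, hxv⟩, ⟨z, ⟨y, hy, rfl⟩, hyv⟩⟩ := hV K (j '' (L : Set Γ))
    (j '' ((fun x : Γ => g * x) '' (L : Set Γ))) (DFn_image hj hLD) (DFn_image hj hgD)
    (hL0.image _) ((hL0.image _).image _) (by omega) (by omega)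
  have h1 : x = g * y := hinj (hLH hx) (H.mul_mem hg (hLH hy)) (hxv.trans hyv.symm)
  have h2 : g = x * y⁻¹ := by rw [h1, mul_inv_cancel_right]
  rw [h2]
  exact L.mul_mem hx (L.inv_mem hy)

end Pool.Agent.H5.BCP
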