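import Pool.Agent.H77.BC.Targets

/-!
# bcp_modules, PVH, FIB and RST (helper5)
-/

set_option autoImplicit false

open Set Matrix

namespace Pool.Agent.H5.BCP

open Pool.Agent.H77.BC

section Inv

variable {K : Type} [Field K]

theorem it_l {k : ℕ} (g : GL (Fin k) K) :
    ((g⁻¹).val : Matrix (Fin k) (Fin k) K)ᵀ * (g.val : Matrix (Fin k) (Fin k) K)ᵀ = 1 := by
  rw [← transpose_mul, ← Units.val_mul, mul_inv_cancel, Units.val_one, transpose_one]

theorem it_r {k : ℕ} (g : GL (Fin k) K) :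
    (g.val : Matrix (Fin k) (Fin k) K)ᵀ * ((g⁻¹).val : Matrix (Fin k) (Fin k) K)ᵀ = 1 := by
  rw [← transpose_mul, ← Units.val_mul, inv_mul_cancel, Units.val_one, transpose_one]

/-- inverse and transpose -/
def sgm (k : ℕ) : GL (Fin k) K ≃* GL (Fin k) K where
  toFun g := ⟨((g⁻¹).val : Matrix (Fin k) (Fin k) K)ᵀ, (g.val : Matrix (Fin k) (Fin k) K)ᵀ,
    it_l g, it_r g⟩
  invFun g := ⟨((g⁻¹).val : Matrix (Fin k) (Fin k) K)ᵀ, (g.val : Matrix (Fin k) (Fin k) K)ᵀ,
    it_l g, it_r g⟩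
  left_inv g := by
    apply Units.ext
    change (g.valᵀ)ᵀ = g.val
    exact transpose_transpose _
  right_inv g := by
    apply Units.ext
    change (g.valᵀ)ᵀ = g.val
    exact transpose_transpose _
  map_mul' g h := by
    apply Units.ext
    change ((g * h)⁻¹).valᵀ = (g⁻¹).valᵀ * (h⁻¹).valᵀ
    rw [_root_.mul_inv_rev, Units.val_mul, transpose_mul]

theorem sgm_val {k : ℕ} (g : GL (Fin k) K) :
    ((sgm k g).val : Matrix (Fin k) (Fin k) K) = ((g⁻¹).val)ᵀ := rfl

theorem Ph_eq {k : ℕ} (χ : Fin k → K) : (Pv χ).comap (sgm k).toMonoidHom = Ph χ := by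
  ext g
  rw [← (Ph χ).inv_mem_iff, mem_Ph]
  change (∃ a : K, ((sgm k g).val : Matrix (Fin k) (Fin k) K) *ᵥ χ = a • χ) ↔ _
  rw [sgm_val, mulVec_transpose]

theorem Pv_eq {k : ℕ} (g : GL (Fin (k + 1)) K) (v : Fin (k + 1) → K)
    (h : (g.val : Matrix _ _ K) *ᵥ e0 = v) : cj g⁻¹ (Pv e0) = Pv v := by
  ext x
  rw [mem_cj, mem_Pv, mem_Pv, inv_inv, Units.val_mul, Units.val_mul, ← mulVec_mulVec, h,
    ← mulVec_mulVec]
  constructor
  · rintro ⟨a, ha⟩
    refine ⟨a, ?_⟩
    have h1 := congrArg (fun w => (g.val : Matrix _ _ K) *ᵥ w) ha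
    simp only [mulVec_mulVec] at h1
    rw [← Matrix.mul_assoc, ← Units.val_mul, mul_inv_cancel, Units.val_one, Matrix.one_mul,
      mulVec_smul, h] at h1
    exact h1
  · rintro ⟨a, ha⟩
    refine ⟨a, ?_⟩
    rw [ha, mulVec_smul, ← h, mulVec_mulVec, ← Units.val_mul, inv_mul_cancel, Units.val_one,
      one_mulVec]

end Inv

theorem pf_PVH {M : Type} (U : RU M) (hN : CNA U) (hJ : CNJ U) (hP : RPE U) (hC : CGL U)
    (hT : TYV) : PVH U := by
  intro K _ _ _ _ k v hv
  obtain ⟨g, hg⟩ := (hT (⊤ : Subgroup (GL (Fin (k + 1)) K))).1 v hv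
  obtain ⟨hD, hR⟩ := hP (K := K) k
  have hcon := (hC (K := K) k).2
  obtain ⟨h1, h2, h3⟩ := hJ g⁻¹ (Pv e0) hD
  rw [Pv_eq g v hg] at h1 h2 h3
  have hσ : DFn U (fun g : GL (Fin (k + 1)) K => sgm (k + 1) g) := by
    refine DFn_gl (DFn_mat fun i j => ?_)
    exact DFn_comp (f := fun g : GL (Fin (k + 1)) K => ((g⁻¹).val : Matrix _ _ K))
      (g := fun A : Matrix (Fin (k + 1)) (Fin (k + 1)) K => A j i) (DFn_entry j i)
      (DFn_comp DFn_val (DFn_glInv DFn_id))
  obtain ⟨h4, h5, h6⟩ := hN (sgm (k + 1)) hσ (Pv v) h1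
  rw [Ph_eq v] at h4 h5 h6
  exact ⟨⟨h3 hcon, by rw [h2, hR]⟩, h6 (h3 hcon), by rw [h5, h2, hR]⟩

section Fib

variable {K : Type} [Field K]

theorem sl_mul {k : ℕ} (A B : SpecialLinearGroup (Fin k) K) : (A * B).val = A.val * B.val := rfl

theorem sl_one {k : ℕ} : (1 : SpecialLinearGroup (Fin k) K).val = 1 := rfl

theorem sl_tt {k : ℕ} (A : SpecialLinearGroup (Fin k) K) : (A⁻¹).transpose * A.transpose = 1 := by
  have h : (A⁻¹).valᵀ * A.valᵀ = 1 := by
    rw [← transpose_mul, ← sl_mul, mul_inv_cancel, sl_one, transpose_one]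
  exact Subtype.ext h

theorem sl_inv_inv {k : ℕ} (A : SpecialLinearGroup (Fin k) K) :
    (((A⁻¹).transpose)⁻¹).transpose = A := by
  have h1 : ((A⁻¹).transpose)⁻¹ = A.transpose := inv_eq_of_mul_eq_one_right (sl_tt A)
  rw [h1]
  have h2 : (A.valᵀ)ᵀ = A.val := transpose_transpose _
  exact Subtype.ext h2

theorem sl_trans_mul {k : ℕ} (A B : SpecialLinearGroup (Fin k) K) :
    ((A * B)⁻¹).transpose = (A⁻¹).transpose * (B⁻¹).transpose := by
  have h : ((A * B)⁻¹).valᵀ = (A⁻¹).valᵀ * (B⁻¹).valᵀ := by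
    rw [_root_.mul_inv_rev, sl_mul, transpose_mul]
  exact Subtype.ext h

/-- inverse and transpose in `SL` -/
def tau (k : ℕ) : SpecialLinearGroup (Fin k) K ≃* SpecialLinearGroup (Fin k) K where
  toFun A := (A⁻¹).transpose
  invFun A := (A⁻¹).transpose
  left_inv A := sl_inv_inv A
  right_inv A := sl_inv_inv A
  map_mul' A B := sl_trans_mul A B

theorem tau_val {k : ℕ} (A : SpecialLinearGroup (Fin k) K) :
    (tau k A).val = ((A⁻¹).val)ᵀ := rfl

theorem inv_eig {k : ℕ} (A : SpecialLinearGroup (Fin k) K) (χ : Fin k → K) (hχ : χ ≠ 0)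
    (h : ∃ a : K, A.val *ᵥ χ = a • χ) : ∃ a : K, (A⁻¹).val *ᵥ χ = a • χ := by
  obtain ⟨a, ha⟩ := h
  have h1 : (A⁻¹).val *ᵥ (A.val *ᵥ χ) = χ := by
    rw [mulVec_mulVec, ← sl_mul, inv_mul_cancel, sl_one, one_mulVec]
  rw [ha, mulVec_smul] at h1
  by_cases h0 : a = 0
  · rw [h0, zero_smul] at h1
    exact absurd h1.symm hχ
  · refine ⟨a⁻¹, ?_⟩
    have h2 := congrArg (fun x => a⁻¹ • x) h1
    simpa [smul_smul, inv_mul_cancel₀ h0] using h2

end Fib

theorem pf_FIB (h : FIA) : FIB := by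
  intro G S K _ _ _ n hn htr π hsur hker s χ hχ hst
  refine h n hn htr (π.comp (tau (n + 1)).toMonoidHom) ?_ ?_ s χ hχ ?_
  · intro g
    obtain ⟨A, hA⟩ := hsur g
    refine ⟨(tau (n + 1)).symm A, ?_⟩
    change π (tau (n + 1) ((tau (n + 1)).symm A)) = g
    rw [MulEquiv.apply_symm_apply, hA]
  · rw [← MonoidHom.comap_ker, hker]
    exact Subgroup.characteristic_iff_comap_eq.1 inferInstance (tau (n + 1))
  · intro A
    change π (tau (n + 1) A) • s = s ↔ _
    rw [hst, tau_val, vecMul_transpose]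
    constructor
    · intro h1
      have h2 := inv_eig A⁻¹ χ hχ h1
      rwa [inv_inv] at h2
    · intro h1
      exact inv_eig A χ hχ h1

theorem pf_RST (hA : ∀ {M : Type} (U : RU M), RKA U) (hC : ∀ {M : Type} (U : RU M), GRC U) :
    RST := by
  intro G S _ _ U hP htr K _ _ _ m π hsur hker hπ s
  have _ := hP.ful
  have _ := hP.fulS
  have _ := hP.dg
  have hf : DFn U (fun A : SpecialLinearGroup (Fin (m + 2)) K => π A • s) :=
    DFn_comp (g := fun p : G × S => p.1 • p.2) hP.dact (DFn_pair hπ (DFn_const s))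
  have hD : U.D (((MulAction.stabilizer G s).comap π : Subgroup _) :
      Set (SpecialLinearGroup (Fin (m + 2)) K)) := by
    change U.D {A : SpecialLinearGroup (Fin (m + 2)) K | π A • s = s}
    exact D_eqf hf (DFn_const s)
  have h1 := hC U ⊤ ((MulAction.stabilizer G s).comap π)
    (fun A : SpecialLinearGroup (Fin (m + 2)) K => π A • s)
    (by rw [Subgroup.coe_top]; exact Ful.full) hD le_top hf (by
      intro a _ b _
      rw [Subgroup.mem_comap, MulAction.mem_stabilizer_iff, map_mul, map_inv, mul_smul,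
        inv_smul_eq_iff]
      exact eq_comm)
  have e1 : (fun A : SpecialLinearGroup (Fin (m + 2)) K => π A • s) ''
      ((⊤ : Subgroup (SpecialLinearGroup (Fin (m + 2)) K)) : Set _) = univ := by
    rw [Subgroup.coe_top, eq_univ_iff_forall]
    intro x
    obtain ⟨g, hg⟩ := MulAction.exists_smul_eq G s x
    obtain ⟨A, hAg⟩ := hsur g
    exact ⟨A, trivial, by
      change π A • s = x
      rw [hAg]
      exact hg⟩
  rw [e1, Subgroup.coe_top] at h1
  refine ⟨hD, by omega, ?_⟩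
  have hfin : ((Subgroup.center (SpecialLinearGroup (Fin (m + 2)) K) :
      Subgroup (SpecialLinearGroup (Fin (m + 2)) K)) :
      Set (SpecialLinearGroup (Fin (m + 2)) K)).Finite := by
    have _ : NeZero (max (Fintype.card (Fin (m + 2))) 1) :=
      ⟨by have := le_max_right (Fintype.card (Fin (m + 2))) 1; omega⟩
    have : Finite (Subgroup.center (SpecialLinearGroup (Fin (m + 2)) K)) :=
      Finite.of_equiv _ (SpecialLinearGroup.center_equiv_rootsOfUnity).symm.toEquiv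
    exact Set.toFinite _
  have hz := (hA U).fin (D_finite (U := U) hfin) ⟨1, Subgroup.one_mem _⟩
  have h2 := hC U ⊤ (Subgroup.center (SpecialLinearGroup (Fin (m + 2)) K))
    (fun A : SpecialLinearGroup (Fin (m + 2)) K => π A)
    (by rw [Subgroup.coe_top]; exact Ful.full) (D_finite hfin) le_top hπ (by
      intro a _ b _
      rw [← hker, MonoidHom.mem_ker, map_mul, map_inv, inv_mul_eq_one])
  have e2 : (fun A : SpecialLinearGroup (Fin (m + 2)) K => π A) ''
      ((⊤ : Subgroup (SpecialLinearGroup (Fin (m + 2)) K)) : Set _) = univ := by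
    rw [Subgroup.coe_top, image_univ]
    exact hsur.range_eq
  rw [e2, Subgroup.coe_top, hz.2 hfin] at h2
  omega

end Pool.Agent.H5.BCP
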